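import Pool.Agent.Lib.MP_3edecc_lc.Main

/-!
# The (1+1) GP* optimizes ORDER in expected time `O(n² + n T_init)`

The definitions (trees, ORDER, HVL-Prime, the (1+1) GP* and its expected optimization time) are in
`Pool/Agent/Lib/MP_3edecc_lc/Defs.lean`.
-/

set_option autoImplicit false

open scoped ENNReal NNReal
open Pool.Agent.Lib.MP_3edecc_lc

/-- There is an absolute constant `C` such that, for every number `n ≥ 1` of variables and every
initial tree `X` (the empty tree included), the expected optimization time of the
(1+1) GP* on ORDER, started in `X`, is at most `C * (n² + n * size X)`. -/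
theorem Pool.Agent.Results.MP_3edecc_lc.GPStarOrder.result :
    ∃ C : ℝ≥0, ∀ (n : ℕ) [NeZero n] (X : State n),
      expectedTime X ≤ (C : ℝ≥0∞) * ((n : ℝ≥0∞) ^ 2 + (n : ℝ≥0∞) * (size X : ℝ≥0∞)) :=
  Pool.Agent.Lib.MP_3edecc_lc.main
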